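import Pool.Agent.Helper77.SUBK.SheetP

/-!
Project SUBK, row NDGM: the nondegenerate case over a number field (port of `Helper47.SUB.NDG`).
-/

set_option autoImplicit false

namespace Pool.Agent.Helper47.SUBK

open Finset Pool.Agent.Helper70.SUB Pool.Agent.Helper77.SUBK

/-- a relation with coefficients in `M` gives a rational one -/
theorem relQ (M : Type) [Field M] [NumberField M] {ι : Type} [Fintype ι] (r : ι → M) (hr : r ≠ 0) :
    ∃ u : ι → ℚ, u ≠ 0 ∧ ∀ h : ι → ℤ, ∑ i, r i * (h i : M) = 0 → ∑ i, u i * (h i : ℚ) = 0 := by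
  classical
  obtain ⟨i0, hi0⟩ := Function.ne_iff.1 hr
  let b := Module.finBasis ℚ M
  have h1 : b.repr (r i0) ≠ 0 := by
    intro h
    apply hi0
    have := congrArg b.repr.symm h
    simpa using this
  obtain ⟨t, ht⟩ := Finsupp.ne_iff.1 h1
  refine ⟨fun i => b.repr (r i) t, ?_, ?_⟩
  · intro h
    exact ht (congrFun h i0)
  · intro h hh
    have h2 := congrArg (fun x => b.repr x t) hh
    simp only [map_zero, Finsupp.coe_zero, Pi.zero_apply] at h2
    rw [map_sum, Finsupp.finsetSum_apply] at h2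
    rw [← h2]
    refine Finset.sum_congr rfl (fun i _ => ?_)
    have h3 : r i * (h i : M) = (h i : ℚ) • r i := by
      rw [Algebra.smul_def, mul_comm]
      simp
    rw [h3, map_smul, Finsupp.smul_apply, smul_eq_mul, mul_comm]

theorem NDGM (hBAS : ST_BASM) (hVOL : ST_VOLM) (hSPAN : ST_SPANM) (hHLOW : ST_HLOWM)
    (hBOX : ST_BOXM) (hCPT : ST_CPT) (hRM : ST_RMM) : ST_NDGM := by
  classical
  intro M _ _ S P k A K a δ M1 Q s μ ν h hk hS hA hRt hK ha hδ hG
  by_contra hcon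
  push Not at hcon
  have hcon' : ∀ u : Fin (k + 1) → ℚ, u ≠ 0 → {j | j ∈ M1 ∧ ∑ i, u i * (h j i : ℚ) = 0}.Finite := by
    intro u hu
    exact hcon u hu
  -- step 1
  have hrow : ∀ v ∈ plc S, ∀ i, (fun i' => ((A v)⁻¹).transpose i i') ≠ 0 := by
    intro v hv i h0
    have hdet : (((A v)⁻¹).transpose).det ≠ 0 := by
      rw [Matrix.det_transpose, Matrix.det_nonsing_inv, Ring.inverse_eq_inv']
      exact inv_ne_zero (hA v hv)
    exact hdet (Matrix.det_eq_zero_of_row_eq_zero i (fun i' => congrFun h0 i'))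
  let Bad : Set ℕ := ⋃ v ∈ plc S, ⋃ i : Fin (k + 1),
    {j | j ∈ M1 ∧ ∑ i', ((A v)⁻¹).transpose i i' * (h j i' : M) = 0}
  have hBad : Bad.Finite := by
    refine Set.Finite.biUnion (Finset.finite_toSet (plc S)) (fun v hv => ?_)
    refine Set.finite_iUnion (fun i => ?_)
    obtain ⟨u, hu, hu2⟩ := relQ M _ (hrow v hv i)
    exact (hcon' u hu).subset (fun j hj => ⟨hj.1, hu2 (h j) hj.2⟩)
  -- constants
  obtain ⟨CB, hCB1, hB⟩ := hBAS M S P (k + 1) A K hS hA hRt hK
  obtain ⟨CV, hCV1, hV⟩ := hVOL M S P (k + 1) A CB hS hA hCB1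
  obtain ⟨CS, hCS1, hSP⟩ := hSPAN M S P k A CB hk hS hA hCB1
  have hC1 : (1 : ℝ) ≤ max CV CS := le_trans hCV1 (le_max_left _ _)
  have hδ1 : 0 < δ / 2 := by positivity
  obtain ⟨τ, Q0, hτ, hHL⟩ := hHLOW M S P k A (max CV CS) (δ / 2) hk hS hA hC1 hδ1
  obtain ⟨C', a', Q1, hC'1, ha', hBX⟩ := hBOX M S P k A CB a (δ / 2) hk hS hA hRt hCB1 ha hδ1
  have hn0 : (0 : ℝ) < (k : ℝ) + 1 := by positivity
  have hVne : none ∈ plc S := Finset.mem_insertNone.2 (by simp)
  have hcard : (1 : ℝ) ≤ ((plc S).card : ℝ) := by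
    exact_mod_cast Finset.card_pos.2 ⟨none, hVne⟩
  set V : ℝ := ((plc S).card : ℝ) with hVdef
  set η : ℝ := δ / 2 / (8 * ((k : ℝ) + 1) * V) with hηdef
  have hη : 0 < η := by positivity
  have e1 : ∀ᶠ j in Filter.atTop, CS ^ 2 ≤ Q j ^ (δ / 2) :=
    ((tendsto_rpow_atTop hδ1).comp hG.lim).eventually_ge_atTop _
  have e2 : ∀ᶠ j in Filter.atTop, CS < Q j ^ δ :=
    ((tendsto_rpow_atTop hδ).comp hG.lim).eventually_gt_atTop _
  have e3 : ∀ᶠ j in Filter.atTop, C' ≤ Q j ^ η :=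
    ((tendsto_rpow_atTop hη).comp hG.lim).eventually_ge_atTop _
  have e4 : ∀ᶠ j in Filter.atTop, max 2 (max Q0 Q1) ≤ Q j := hG.lim.eventually_ge_atTop _
  obtain ⟨J0, hJ0⟩ := Filter.eventually_atTop.1 (e1.and (e2.and (e3.and e4)))
  let M2 : Set ℕ := (M1 \ Bad) \ Set.Iio J0
  have hM2 : M2.Infinite := (hG.inf.sdiff hBad).sdiff (Set.finite_Iio J0)
  have hM2M : ∀ j ∈ M2, j ∈ M1 := fun j hj => hj.1.1
  have hlarge : ∀ j ∈ M2, CS ^ 2 ≤ Q j ^ (δ / 2) ∧ CS < Q j ^ δ ∧ C' ≤ Q j ^ η ∧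
      max 2 (max Q0 Q1) ≤ Q j := fun j hj => hJ0 j (not_lt.1 hj.2)
  have key : ∀ j ∈ M2, ∃ (s' : Option ℕ → Fin (k + 1) → ℝ) (g : Fin k → Fin (k + 1) → ℤ),
      (∀ v ∈ plc S, ∀ i, Q j ^ (-a') ≤ s' v i ∧ s' v i ≤ Q j ^ a') ∧
      (∏ v ∈ plc S, ∏ i, s' v i ≤ C') ∧
      LinearIndependent ℚ (fun b => cv (g b)) ∧ (∀ b, ∑ i, h j i * g b i = 0) ∧
      (∀ v ∈ plc S, ∀ b i, P.nv v ((A v).mulVec (cM (g b)) i)
        ≤ C' * s' v i * if v = none then Q j ^ (-(δ / 2 / ((k : ℝ) + 1))) else 1) ∧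
      ∃ i, Q j ^ τ ≤ |(h j i : ℝ)| := by
    intro j hj
    obtain ⟨g1, g2, g3, g4⟩ := hlarge j hj
    have hjM := hM2M j hj
    have hH := hG.hyp j hjM
    have hQ2 : (2 : ℝ) ≤ Q j := le_trans (le_max_left _ _) g4
    have hQpos : 0 < Q j := by linarith
    have hQ0 : Q0 ≤ Q j := le_trans (le_trans (le_max_left _ _) (le_max_right _ _)) g4
    have hQ1 : Q1 ≤ Q j := le_trans (le_trans (le_max_right _ _) (le_max_right _ _)) g4
    obtain ⟨B, lam, hBas⟩ := hB (s j) hH.spos (fun p hp i => hG.sK j hjM p hp i)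
    have hgap := hG.gap j hjM
    have hmu : CS * μ j < ν j := by
      have h1 : CS * μ j ≤ CS * (Q j ^ (-δ) * ν j) := mul_le_mul_of_nonneg_left hgap (by linarith)
      have h2 : CS * (Q j ^ (-δ) * ν j) < ν j := by
        have h3 : CS * Q j ^ (-δ) < 1 := by
          rw [Real.rpow_neg hQpos.le, ← div_eq_mul_inv, div_lt_one (Real.rpow_pos_of_pos hQpos _)]
          exact g2
        calc CS * (Q j ^ (-δ) * ν j) = (CS * Q j ^ (-δ)) * ν j := by ring
          _ < 1 * ν j := mul_lt_mul_of_pos_right h3 hH.nupos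
          _ = ν j := one_mul _
      linarith
    obtain ⟨hs1, hs2, t, ht1, ht2, ht3⟩ := hSP (s j) (μ j) (ν j) (h j) B lam hH hBas hmu
    have hlast : 0 < lam (Fin.last k) := hBas.pos _
    have hlamgap : ∀ l : Fin (k + 1), (l : ℕ) < k → lam l ≤ Q j ^ (-(δ / 2)) * lam (Fin.last k) := by
      intro l hl
      have h1 := (hs1 l hl).1
      have h2 : CS * μ j ≤ CS * (Q j ^ (-δ) * (CS * lam (Fin.last k))) := by
        refine mul_le_mul_of_nonneg_left (le_trans hgap ?_) (by linarith)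
        exact mul_le_mul_of_nonneg_left hs2 (Real.rpow_nonneg hQpos.le _)
      have h3 : CS * (Q j ^ (-δ) * (CS * lam (Fin.last k)))
          = (CS ^ 2 * Q j ^ (-(δ / 2))) * (Q j ^ (-(δ / 2)) * lam (Fin.last k)) := by
        have : Q j ^ (-δ) = Q j ^ (-(δ / 2)) * Q j ^ (-(δ / 2)) := by
          rw [← Real.rpow_add hQpos]
          congr 1
          ring
        rw [this]
        ring
      have h4 : CS ^ 2 * Q j ^ (-(δ / 2)) ≤ 1 := by
        rw [Real.rpow_neg hQpos.le, ← div_eq_mul_inv, div_le_one (Real.rpow_pos_of_pos hQpos _)]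
        exact g1
      have h5 : 0 ≤ Q j ^ (-(δ / 2)) * lam (Fin.last k) :=
        mul_nonneg (Real.rpow_nonneg hQpos.le _) hlast.le
      calc lam l ≤ CS * μ j := h1
        _ ≤ _ := h2
        _ = _ := h3
        _ ≤ 1 * (Q j ^ (-(δ / 2)) * lam (Fin.last k)) := mul_le_mul_of_nonneg_right h4 h5
        _ = _ := one_mul _
    have hvol := hV (s j) B lam hH.spos hBas
    have hne : ∀ v ∈ plc S, ∀ i, ((A v)⁻¹).transpose.mulVec (cM (h j)) i ≠ 0 := by
      intro v hv i h0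
      apply hj.1.2
      refine Set.mem_iUnion₂.2 ⟨v, hv, Set.mem_iUnion.2 ⟨i, hjM, ?_⟩⟩
      exact h0
    have hht := hHL (Q j) (s j) (h j) lam t hQ0 hH.spos hBas.pos
      (le_trans (one_div_le_one_div_of_le (by linarith) (le_max_left CV CS)) hvol.1)
      hlamgap hne ht1 ht2 (le_trans ht3 (div_le_div_of_nonneg_right (le_max_right CV CS) hlast.le))
    obtain ⟨s', g, b1, b2, b3, b4, b5⟩ := hBX (Q j) (s j) (h j) B lam hQ1
      (fun v hv i => ⟨hG.lo j hjM v hv i, hG.up j hjM v hv i⟩) hBas (fun l hl => (hs1 l hl).2) hlamgap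
    exact ⟨s', g, b1, b2, b3, b4, b5, hht⟩
  choose! s' g hsg using key
  -- compactness
  obtain ⟨M3, c0, hM3, hM3i, hc0⟩ := hCPT ({v // v ∈ plc S} × Fin (k + 1)) M2 a' η
    (fun j vi => Real.log (s' j vi.1.1 vi.2) / Real.log (Q j)) hM2 hη (by
      intro j hj vi
      have hb := (hsg j hj).1 vi.1.1 vi.1.2 vi.2
      have hQ2 : (2 : ℝ) ≤ Q j := le_trans (le_max_left _ _) (hlarge j hj).2.2.2
      have hQpos : 0 < Q j := by linarith
      have hlog : 0 < Real.log (Q j) := Real.log_pos (by linarith)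
      have hspos : 0 < s' j vi.1.1 vi.2 := lt_of_lt_of_le (Real.rpow_pos_of_pos hQpos _) hb.1
      have l1 : -a' * Real.log (Q j) ≤ Real.log (s' j vi.1.1 vi.2) := by
        rw [← Real.log_rpow hQpos]
        exact Real.log_le_log (Real.rpow_pos_of_pos hQpos _) hb.1
      have l2 : Real.log (s' j vi.1.1 vi.2) ≤ a' * Real.log (Q j) := by
        rw [← Real.log_rpow hQpos]
        exact Real.log_le_log hspos hb.2
      rw [abs_le]
      refine ⟨?_, ?_⟩
      · rw [le_div_iff₀ hlog]; exact l1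
      · rw [div_le_iff₀ hlog]; exact l2)
  -- data for RM
  let d : Option ℕ → Fin (k + 1) → ℝ := fun v i => if hv : v ∈ plc S then c0 (⟨v, hv⟩, i) else 0
  set κ : ℝ := 4 * V * η with hκdef
  let c : Option ℕ → Fin (k + 1) → ℝ := fun v i => d v i + 2 * η - (if v = none then κ else 0)
  have hlogs : ∀ j ∈ M3, ∀ v ∈ plc S, ∀ i,
      |Real.log (s' j v i) / Real.log (Q j) - d v i| ≤ η := by
    intro j hj v hv i
    have := hc0 j hj (⟨v, hv⟩, i)
    simp only [d, dif_pos hv]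
    exact this
  have hsum : ∑ v ∈ plc S, ∑ i, c v i ≤ 0 := by
    obtain ⟨j, hj⟩ := hM3i.nonempty
    have hj2 := hM3 hj
    have hQ2 : (2 : ℝ) ≤ Q j := le_trans (le_max_left _ _) (hlarge j hj2).2.2.2
    have hQpos : 0 < Q j := by linarith
    have hlog : 0 < Real.log (Q j) := Real.log_pos (by linarith)
    have hspos : ∀ v ∈ plc S, ∀ i, 0 < s' j v i := fun v hv i =>
      lt_of_lt_of_le (Real.rpow_pos_of_pos hQpos _) ((hsg j hj2).1 v hv i).1
    have h1 : ∑ v ∈ plc S, ∑ i, d v i ≤ ∑ v ∈ plc S, ∑ i, (Real.log (s' j v i) / Real.log (Q j) + η) := by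
      refine Finset.sum_le_sum (fun v hv => Finset.sum_le_sum (fun i _ => ?_))
      have := abs_le.1 (hlogs j hj v hv i)
      linarith [this.1]
    have h2 : ∑ v ∈ plc S, ∑ i, Real.log (s' j v i) / Real.log (Q j) ≤ η := by
      have h3 : ∑ v ∈ plc S, ∑ i, Real.log (s' j v i) / Real.log (Q j)
          = Real.log (∏ v ∈ plc S, ∏ i, s' j v i) / Real.log (Q j) := by
        rw [Real.log_prod (fun v hv => (Finset.prod_pos (fun i _ => hspos v hv i)).ne'), Finset.sum_div]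
        refine Finset.sum_congr rfl (fun v hv => ?_)
        rw [Real.log_prod (fun i _ => (hspos v hv i).ne'), Finset.sum_div]
      rw [h3, div_le_iff₀ hlog, ← Real.log_rpow hQpos]
      refine Real.log_le_log (Finset.prod_pos (fun v hv => Finset.prod_pos (fun i _ => hspos v hv i))) ?_
      exact le_trans (hsg j hj2).2.1 (hlarge j hj2).2.2.1
    have h4 : ∑ v ∈ plc S, ∑ _i : Fin (k + 1), η = V * ((k : ℝ) + 1) * η := by
      rw [Finset.sum_const, Finset.sum_const, Finset.card_univ, Fintype.card_fin, nsmul_eq_mul, nsmul_eq_mul]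
      push_cast
      ring
    have h5 : ∑ v ∈ plc S, ∑ i, c v i
        = ∑ v ∈ plc S, ∑ i, d v i + 2 * (∑ v ∈ plc S, ∑ _i : Fin (k + 1), η)
          - ∑ v ∈ plc S, ∑ _i : Fin (k + 1), (if v = none then κ else 0) := by
      simp only [c, Finset.sum_sub_distrib, Finset.sum_add_distrib, Finset.mul_sum]
    have h6 : ∑ v ∈ plc S, ∑ _i : Fin (k + 1), (if v = none then κ else 0) = ((k : ℝ) + 1) * κ := by
      have : ∀ v ∈ plc S, ∑ _i : Fin (k + 1), (if v = none then κ else (0 : ℝ))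
          = if v = none then ((k : ℝ) + 1) * κ else 0 := by
        intro v _
        rw [Finset.sum_const, Finset.card_univ, Fintype.card_fin, nsmul_eq_mul]
        push_cast
        split_ifs <;> ring
      rw [Finset.sum_congr rfl this, Finset.sum_ite_eq' (plc S) none (fun _ => ((k : ℝ) + 1) * κ), if_pos hVne]
    simp only [Finset.sum_add_distrib] at h1
    rw [h4] at h1
    rw [h5, h6, h4, hκdef]
    have h7 : η ≤ V * ((k : ℝ) + 1) * η := by
      have : 1 ≤ V * ((k : ℝ) + 1) := by nlinarith [Nat.cast_nonneg (α := ℝ) k]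
      nlinarith
    nlinarith
  have hδ2 : 0 < δ / 2 / ((k : ℝ) + 1) - κ := by
    have : κ = δ / 2 / ((k : ℝ) + 1) / 2 := by
      rw [hκdef, hηdef]
      field_simp
      ring
    rw [this]
    have : 0 < δ / 2 / ((k : ℝ) + 1) := by positivity
    linarith
  refine hRM M S P k A c (δ / 2 / ((k : ℝ) + 1) - κ) τ hk hS hA hsum hδ2 hτ M3 Q g h hM3i hG.lim ?_
  intro j hj
  have hj2 := hM3 hj
  obtain ⟨b1, b2, b3, b4, b5, b6⟩ := hsg j hj2
  have hQ2 : (2 : ℝ) ≤ Q j := le_trans (le_max_left _ _) (hlarge j hj2).2.2.2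
  have hQpos : 0 < Q j := by linarith
  have hQ1 : 1 ≤ Q j := by linarith
  have hlog : 0 < Real.log (Q j) := Real.log_pos (by linarith)
  refine ⟨b3, (hG.hyp j (hM2M j hj2)).prim, b4, ?_, b6⟩
  intro v hv b i
  refine le_trans (b5 v hv b i) ?_
  have hspos : 0 < s' j v i := lt_of_lt_of_le (Real.rpow_pos_of_pos hQpos _) (b1 v hv i).1
  have h1 : s' j v i ≤ Q j ^ (d v i + η) := by
    have := (abs_le.1 (hlogs j hj v hv i)).2
    have h2 : Real.log (s' j v i) ≤ (d v i + η) * Real.log (Q j) := by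
      rw [← div_le_iff₀ hlog]
      linarith
    rw [← Real.log_rpow hQpos] at h2
    exact (Real.log_le_log_iff hspos (Real.rpow_pos_of_pos hQpos _)).1 h2
  have h2 : C' * s' j v i ≤ Q j ^ (d v i + 2 * η) := by
    calc C' * s' j v i ≤ Q j ^ η * Q j ^ (d v i + η) :=
          mul_le_mul (hlarge j hj2).2.2.1 h1 hspos.le (Real.rpow_nonneg hQpos.le _)
      _ = Q j ^ (d v i + 2 * η) := by
          rw [← Real.rpow_add hQpos]
          congr 1
          ring
  by_cases hvn : v = none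
  · rw [if_pos hvn, if_pos hvn]
    calc C' * s' j v i * Q j ^ (-(δ / 2 / ((k : ℝ) + 1)))
        ≤ Q j ^ (d v i + 2 * η) * Q j ^ (-(δ / 2 / ((k : ℝ) + 1))) :=
          mul_le_mul_of_nonneg_right h2 (Real.rpow_nonneg hQpos.le _)
      _ = Q j ^ (c v i - (δ / 2 / ((k : ℝ) + 1) - κ)) := by
          rw [← Real.rpow_add hQpos]
          congr 1
          simp only [c, if_pos hvn]
          ring
  · rw [if_neg hvn, if_neg hvn, mul_one]
    refine le_trans h2 (le_of_eq ?_)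
    have h3 : c v i - 0 = d v i + 2 * η := by
      simp only [c, if_neg hvn]
      ring
    rw [h3]

end Pool.Agent.Helper47.SUBK
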