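import Pool.Agent.Helper70.SUB.SheetL

/-!
Project SUBK, row T1BG: `x = w ^ 2 +` smaller S-units, `y` an arbitrary integer.
-/

set_option autoImplicit false

namespace Pool.Agent.Helper47.SUBK

open Finset Pool.Agent.Helper70.SUB Pool.Agent.Helper77.SUBK Pool.Agent.Helper70.SUBL

/-! ### evaluation of Laurent polynomials -/

section ev
variable {M : Type} [Field M] {r : ℕ} {w : Fin r → M}

theorem evM_add' (h : ST_LAUBM) (hw : ∀ k, w k ≠ 0) (F G : LauM M r) :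
    evM w (F + G) = evM w F + evM w G := ((h M r).1 w hw).2.2.1 F G

theorem evM_smul' (h : ST_LAUBM) (hw : ∀ k, w k ≠ 0) (c : M) (F : LauM M r) :
    evM w (c • F) = c * evM w F := ((h M r).1 w hw).2.2.2.1 c F

theorem evM_mul' (h : ST_LAUBM) (hw : ∀ k, w k ≠ 0) (F G : LauM M r) :
    evM w (F * G) = evM w F * evM w G := ((h M r).1 w hw).2.2.2.2 F G

theorem evM_zero' (h : ST_LAUBM) (hw : ∀ k, w k ≠ 0) : evM w (0 : LauM M r) = 0 := by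
  have h1 := evM_smul' h hw (0 : M) (0 : LauM M r)
  rwa [zero_smul, zero_mul] at h1

theorem evM_one' (h : ST_LAUBM) (hw : ∀ k, w k ≠ 0) : evM w (1 : LauM M r) = 1 := by
  have h1 := ((h M r).1 w hw).2.1 (0 : Fin r → ℤ) (1 : M)
  rw [AddMonoidAlgebra.one_def, h1]
  simp [monM]

theorem evM_pow' (h : ST_LAUBM) (hw : ∀ k, w k ≠ 0) (F : LauM M r) (n : ℕ) :
    evM w (F ^ n) = evM w F ^ n := by
  induction n with
  | zero => rw [pow_zero, pow_zero, evM_one' h hw]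
  | succ n ih => rw [pow_succ, pow_succ, evM_mul' h hw, ih]

theorem evM_sum' (h : ST_LAUBM) (hw : ∀ k, w k ≠ 0) {ι : Type} (s : Finset ι)
    (F : ι → LauM M r) : evM w (∑ i ∈ s, F i) = ∑ i ∈ s, evM w (F i) := by
  classical
  induction s using Finset.induction_on with
  | empty => rw [Finset.sum_empty, Finset.sum_empty, evM_zero' h hw]
  | insert a s ha ih =>
    rw [Finset.sum_insert ha, Finset.sum_insert ha, evM_add' h hw, ih]

end ev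

/-! ### the estimate at the distinguished place -/

/-- the threshold -/
theorem thrBG (t : ℕ) {δ : ℝ} (hδ : 0 < δ) (D : ℝ) :
    ∃ W0 : ℝ, ∀ W : ℝ, W0 ≤ W → 6 ≤ W ∧ (t : ℝ) * W ^ (-δ) ≤ 1 / 2 ∧ D ≤ W := by
  have h1 : Filter.Tendsto (fun W : ℝ => (t : ℝ) * W ^ (-δ)) Filter.atTop (nhds ((t : ℝ) * 0)) :=
    (tendsto_rpow_neg_atTop hδ).const_mul _
  rw [mul_zero] at h1
  have h2 : ∀ᶠ W : ℝ in Filter.atTop, (t : ℝ) * W ^ (-δ) ≤ 1 / 2 := by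
    have := h1.eventually (gt_mem_nhds (show (0 : ℝ) < 1 / 2 by norm_num))
    filter_upwards [this] with W hW using le_of_lt hW
  have h3 : ∀ᶠ W : ℝ in Filter.atTop, 6 ≤ W ∧ (t : ℝ) * W ^ (-δ) ≤ 1 / 2 ∧ D ≤ W := by
    filter_upwards [h2, Filter.eventually_ge_atTop (6 : ℝ), Filter.eventually_ge_atTop D] with W a b c
      using ⟨b, a, c⟩
  exact Filter.eventually_atTop.mp h3

theorem v_leBG {t : ℕ} {δ : ℝ} {W s : ℂ} (hW : 0 < ‖W‖) (hs : ‖s‖ ≤ t * ‖W‖ ^ (2 - δ)) :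
    ‖s * W⁻¹ ^ 2‖ ≤ t * ‖W‖ ^ (-δ) := by
  rw [norm_mul, norm_pow, norm_inv, inv_pow, ← div_eq_mul_inv, div_le_iff₀ (by positivity)]
  have h1 : ‖W‖ ^ (-δ) * ‖W‖ ^ 2 = ‖W‖ ^ (2 - δ) := by
    rw [← Real.rpow_natCast, ← Real.rpow_add hW]
    congr 1
    push_cast
    ring
  rw [mul_assoc, h1]
  exact hs

/-- pointwise estimate -/
theorem ptBG (t : ℕ) {δ ε : ℝ} (hε : 0 < ε) (K : ℕ) (hK : 7 ≤ δ * K) (c : ℕ → ℚ) (C : ℝ)
    (hC : 1 ≤ C) (hc : ∀ v : ℂ, ‖v‖ ≤ 1 →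
      ‖(∑ k ∈ Finset.range K, (c k : ℂ) * v ^ k) ^ 2 - (1 + v) ^ 3‖ ≤ C * ‖v‖ ^ K)
    {W s : ℂ} {x y : ℝ} (h6 : 6 ≤ ‖W‖) (h12 : (t : ℝ) * ‖W‖ ^ (-δ) ≤ 1 / 2)
    (hD : C * (t : ℝ) ^ K ≤ ‖W‖) (hs : ‖s‖ ≤ t * ‖W‖ ^ (2 - δ)) (hX : (x : ℂ) = W ^ 2 + s)
    (hd : |y ^ 2 - x ^ 3| ≤ |x| ^ (1 / (2 + ε))) :
    16 ≤ |x| ∧ |y| ≤ |x| ^ (2 : ℝ) ∧
      (‖(y : ℂ) - W ^ 3 * ∑ k ∈ Finset.range K, (c k : ℂ) * (s * W⁻¹ ^ 2) ^ k‖ ≤ |x| ^ (-(1 / 2) : ℝ) ∨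
        ‖((-y : ℝ) : ℂ) - W ^ 3 * ∑ k ∈ Finset.range K, (c k : ℂ) * (s * W⁻¹ ^ 2) ^ k‖ ≤
          |x| ^ (-(1 / 2) : ℝ)) := by
  have hW0 : 0 < ‖W‖ := by linarith
  have hWne : W ≠ 0 := norm_pos_iff.1 hW0
  set v : ℂ := s * W⁻¹ ^ 2 with hv
  have hv1 : ‖v‖ ≤ t * ‖W‖ ^ (-δ) := v_leBG hW0 hs
  have hv2 : ‖v‖ ≤ 1 / 2 := hv1.trans h12
  have hXv : (x : ℂ) = W ^ 2 * (1 + v) := by
    rw [hX, hv]
    field_simp
  have hxn : |x| = ‖W‖ ^ 2 * ‖1 + v‖ := by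
    have h1 := congrArg norm hXv
    rw [norm_mul, norm_pow] at h1
    rw [← h1, Complex.norm_real, Real.norm_eq_abs]
  have h1v : 1 / 2 ≤ ‖1 + v‖ := by
    have h2 : ‖(1 : ℂ)‖ ≤ ‖1 + v‖ + ‖v‖ := by
      have h3 := norm_sub_le (1 + v) v
      rwa [add_sub_cancel_right] at h3
    rw [norm_one] at h2
    linarith
  have hx16 : 16 ≤ |x| := by
    rw [hxn]
    nlinarith [sq_nonneg ‖W‖]
  -- `x` is positive
  have hxpow : |x| ^ (1 / (2 + ε)) ≤ Real.sqrt |x| := by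
    rw [Real.sqrt_eq_rpow]
    apply Real.rpow_le_rpow_of_exponent_le (by linarith)
    apply one_div_le_one_div_of_le (by norm_num) (by linarith)
  set q : ℝ := Real.sqrt |x| with hq
  have hq2 : q ^ 2 = |x| := Real.sq_sqrt (abs_nonneg _)
  have hq4 : 4 ≤ q := by
    have h2 : Real.sqrt 16 ≤ q := Real.sqrt_le_sqrt hx16
    have h3 : Real.sqrt 16 = 4 := by
      rw [show (16 : ℝ) = 4 ^ 2 by norm_num, Real.sqrt_sq (by norm_num)]
    linarith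
  have hd2 : |y ^ 2 - x ^ 3| ≤ q := hd.trans hxpow
  obtain ⟨hd3, hd4⟩ := abs_le.mp hd2
  have hqx : q ≤ |x| := by nlinarith
  have hxpos : 0 < x := by
    by_contra hneg
    push Not at hneg
    have h2 : |x| = -x := abs_of_nonpos hneg
    have h3 : 16 ≤ -x := by rw [← h2]; exact hx16
    have h4 : (0 : ℝ) ≤ y ^ 2 := sq_nonneg y
    have h5 : x ^ 3 = -((-x) * (-x) ^ 2) := by ring
    have h6 : 256 ≤ (-x) ^ 2 := by nlinarith
    have h7 : -x ≤ (-x) * (-x) ^ 2 := by nlinarith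
    have h8 : (16 : ℝ) * 255 ≤ (-x) * ((-x) ^ 2 - 1) := by nlinarith
    rw [h2] at hqx
    nlinarith
  have hxa : |x| = x := abs_of_pos hxpos
  rw [hxa] at hq2 hqx hx16
  have hq0 : 0 < q := by linarith
  have hy2 : (q ^ 3 / 2) ^ 2 ≤ y ^ 2 := by
    have h2 : q ^ 6 = x ^ 3 := by rw [← hq2]; ring
    have h3 : (q ^ 3 / 2) ^ 2 = q ^ 6 / 4 := by ring
    rw [h3, h2]
    have h4 : q ≤ x ^ 3 / 2 := by
      have h5 : x ≤ x ^ 3 / 2 := by nlinarith [sq_nonneg x]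
      linarith
    have h6 : 0 < x ^ 3 := by positivity
    linarith
  have hyq : q ^ 3 / 2 ≤ |y| := by
    have h2 := sq_le_sq.1 hy2
    rwa [abs_of_pos (by positivity)] at h2
  have hyle : |y| ≤ x ^ 2 := by
    have h2 : y ^ 2 ≤ (x ^ 2) ^ 2 := by
      have h3 : x ≤ x ^ 3 * (x - 1) := by
        have h4 : (1 : ℝ) ≤ x ^ 2 * (x - 1) := by nlinarith [sq_nonneg x]
        nlinarith
      nlinarith
    have h5 := sq_le_sq.1 h2
    rwa [abs_of_pos (show (0 : ℝ) < x ^ 2 by positivity)] at h5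
  -- the approximation
  set F : ℂ := W ^ 3 * ∑ k ∈ Finset.range K, (c k : ℂ) * v ^ k with hF
  have h7 := hc v (by linarith)
  have hF2 : ‖F ^ 2 - (x : ℂ) ^ 3‖ ≤ 1 := by
    have h8 : F ^ 2 - (x : ℂ) ^ 3 = W ^ 6 * ((∑ k ∈ Finset.range K, (c k : ℂ) * v ^ k) ^ 2 - (1 + v) ^ 3) := by
      rw [hF, hXv]
      ring
    rw [h8, norm_mul, norm_pow]
    have h9 : ‖v‖ ^ K ≤ (t : ℝ) ^ K * ‖W‖ ^ (-7 : ℝ) := by
      have h10 : ‖v‖ ^ K ≤ (t * ‖W‖ ^ (-δ)) ^ K := pow_le_pow_left₀ (norm_nonneg _) hv1 K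
      refine h10.trans ?_
      rw [mul_pow, ← Real.rpow_natCast (‖W‖ ^ (-δ)), ← Real.rpow_mul hW0.le]
      apply mul_le_mul_of_nonneg_left _ (by positivity)
      apply Real.rpow_le_rpow_of_exponent_le (by linarith)
      linarith
    have hW7 : ‖W‖ ^ (-7 : ℝ) = 1 / ‖W‖ ^ 7 := by
      rw [Real.rpow_neg hW0.le, one_div]
      congr 1
      exact_mod_cast Real.rpow_natCast ‖W‖ 7
    calc ‖W‖ ^ 6 * ‖(∑ k ∈ Finset.range K, (c k : ℂ) * v ^ k) ^ 2 - (1 + v) ^ 3‖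
        ≤ ‖W‖ ^ 6 * (C * ((t : ℝ) ^ K * (1 / ‖W‖ ^ 7))) := by
          apply mul_le_mul_of_nonneg_left _ (by positivity)
          refine h7.trans ?_
          apply mul_le_mul_of_nonneg_left _ (by linarith)
          rw [← hW7]
          exact h9
      _ = C * (t : ℝ) ^ K / ‖W‖ := by field_simp
      _ ≤ 1 := by
          rw [div_le_one hW0]
          exact hD
  have hprod : ‖(y : ℂ) - F‖ * ‖(y : ℂ) + F‖ ≤ 2 * q := by
    rw [← norm_mul]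
    have h8 : ((y : ℂ) - F) * ((y : ℂ) + F) = ((y ^ 2 - x ^ 3 : ℝ) : ℂ) - (F ^ 2 - (x : ℂ) ^ 3) := by
      push_cast
      ring
    rw [h8]
    refine (norm_sub_le _ _).trans ?_
    rw [Complex.norm_real, Real.norm_eq_abs]
    linarith
  have hsumn : 2 * |y| ≤ ‖(y : ℂ) - F‖ + ‖(y : ℂ) + F‖ := by
    have h8 := norm_add_le ((y : ℂ) - F) ((y : ℂ) + F)
    have h9 : ((y : ℂ) - F) + ((y : ℂ) + F) = ((2 * y : ℝ) : ℂ) := by
      push_cast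
      ring
    rw [h9, Complex.norm_real, Real.norm_eq_abs, abs_mul, abs_of_pos (by norm_num : (0 : ℝ) < 2)] at h8
    exact h8
  have hfin : ∀ A B : ℝ, 0 ≤ A → |y| ≤ B → A * B ≤ 2 * q → A ≤ |x| ^ (-(1 / 2) : ℝ) := by
    intro A B hA hB hAB
    have h8 : |x| ^ (-(1 / 2) : ℝ) = 1 / q := by
      rw [Real.rpow_neg (abs_nonneg _), hq, Real.sqrt_eq_rpow]
      exact (one_div _).symm
    rw [h8, le_div_iff₀ hq0]
    have h9 : A * (q ^ 3 / 2) ≤ 2 * q := le_trans (mul_le_mul_of_nonneg_left (hyq.trans hB) hA) hAB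
    have h10 : A * q ^ 2 ≤ 4 := by
      have h11 : (A * q ^ 2) * q ≤ 4 * q := by nlinarith
      exact le_of_mul_le_mul_right h11 hq0
    have h12 : A * q * 4 ≤ A * q ^ 2 := by
      have h13 : A * q * 4 ≤ A * q * q := mul_le_mul_of_nonneg_left hq4 (mul_nonneg hA hq0.le)
      linarith [h13, (by ring : A * q * q = A * q ^ 2)]
    linarith
  refine ⟨by rw [hxa]; exact hx16, ?_, ?_⟩
  · rw [hxa]
    have h8 : x ^ (2 : ℝ) = x ^ 2 := by exact_mod_cast Real.rpow_natCast x 2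
    rw [h8]
    exact hyle
  · rcases le_total ‖(y : ℂ) - F‖ ‖(y : ℂ) + F‖ with h8 | h8
    · left
      exact hfin _ _ (norm_nonneg _) (by linarith) hprod
    · right
      have h9 : ((-y : ℝ) : ℂ) - F = -((y : ℂ) + F) := by
        push_cast
        ring
      rw [h9, norm_neg]
      refine hfin _ ‖(y : ℂ) - F‖ (norm_nonneg _) (by linarith) ?_
      rw [mul_comm]
      exact hprod

/-! ### the row -/

theorem indepM_mono {M : Type} [Field M] {r : ℕ} {A B : Set ℕ} {w : ℕ → Fin r → M} (h : A ⊆ B)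
    (hB : IndepM B w) : IndepM A w :=
  ⟨fun j hj k => hB.1 j (h hj) k, fun l ρ hl => (hB.2 l ρ hl).subset fun _ hj => ⟨h hj.1, hj.2⟩⟩

theorem HB_mono {M : Type} [Field M] [NumberField M] {S : Finset ℕ} {P : PF S M} {H H' : ℝ} {z : M}
    (h : H ≤ H') (hz : HB P H z) : HB P H' z := fun v hv σ => (hz v hv σ).trans h

theorem T1BG (hCONJ : ST_CONJ) (hEXTR : ST_EXTR) (hEXPK : ST_EXPK) (hSUBYK : ST_SUBYK)
    (hCOREK : ST_COREK) (hLAUBM : ST_LAUBM) : ST_T1BG := by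
  classical
  intro M _ _ _ S φ t ε δ hS hε hδ hδ2
  by_contra hne
  -- the sequence
  let τ : Type := {q : M × (Fin t → M) × ℤ × ℤ // SV S q.1 ∧ (∀ i, q.2.1 i = 0 ∨ SV S (q.2.1 i)) ∧
    (∀ i, ‖φ (q.2.1 i)‖ ≤ ‖φ q.1‖ ^ (2 - δ)) ∧ q.1 ^ 2 + ∑ i, q.2.1 i = (q.2.2.1 : M) ∧
    q.2.2.2 ^ 2 ≠ q.2.2.1 ^ 3}
  obtain ⟨f, hf1, hf2⟩ := hEXTR τ (fun s => s.1.2.2.1) (fun s => s.1.2.2.2) ε hε
    (fun s => s.2.2.2.2.2) (by
      rintro ⟨C, hC⟩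
      exact hne ⟨C, fun w a x y h1 h2 h3 h4 h5 => hC ⟨(w, a, x, y), h1, h2, h3, h4, h5⟩⟩)
  set w : ℕ → M := fun j => (f j).1.1 with hw
  set a : ℕ → Fin t → M := fun j => (f j).1.2.1 with ha
  set x : ℕ → ℤ := fun j => (f j).1.2.2.1 with hx
  set y : ℕ → ℤ := fun j => (f j).1.2.2.2 with hy
  have hxj : ∀ j : ℕ, (j : ℝ) ≤ |(x j : ℝ)| := hf1
  have hdj : ∀ j, |((y j ^ 2 - x j ^ 3 : ℤ) : ℝ)| ≤ |(x j : ℝ)| ^ (1 / (2 + ε)) := hf2
  have hwS : ∀ j, SV S (w j) := fun j => (f j).2.1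
  have haS : ∀ j i, a j i = 0 ∨ SV S (a j i) := fun j => (f j).2.2.1
  have haB : ∀ j i, ‖φ (a j i)‖ ≤ ‖φ (w j)‖ ^ (2 - δ) := fun j => (f j).2.2.2.1
  have hsum : ∀ j, w j ^ 2 + ∑ i, a j i = (x j : M) := fun j => (f j).2.2.2.2.1
  have hne3 : ∀ j, y j ^ 2 ≠ x j ^ 3 := fun j => (f j).2.2.2.2.2
  have hfinx : ∀ B : ℝ, {j : ℕ | |(x j : ℝ)| ≤ B}.Finite := by
    intro B
    refine (Set.finite_le_nat ⌊B⌋₊).subset fun j hj => ?_
    exact Nat.le_floor ((hxj j).trans hj)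
  have hsB : ∀ j, ‖φ (∑ i, a j i)‖ ≤ t * ‖φ (w j)‖ ^ (2 - δ) := by
    intro j
    rw [map_sum]
    refine (norm_sum_le _ _).trans ?_
    refine (Finset.sum_le_sum fun i _ => haB j i).trans ?_
    simp
  have hxC : ∀ j, (((x j : ℝ)) : ℂ) = φ (w j) ^ 2 + φ (∑ i, a j i) := by
    intro j
    have h1 := congrArg φ (hsum j)
    rw [map_add, map_pow, map_intCast] at h1
    rw [h1]
    push_cast
    rfl
  -- the series
  obtain ⟨K, hK⟩ := exists_nat_ge (7 / δ)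
  have hK7 : 7 ≤ δ * K := by
    rw [div_le_iff₀ hδ] at hK
    linarith
  have hK1 : 1 ≤ K := by
    rcases Nat.eq_zero_or_pos K with h | h
    · exfalso
      rw [h, Nat.cast_zero, mul_zero] at hK7
      linarith
    · exact h
  obtain ⟨⟨c, C, _, hC, hcv⟩, _⟩ := hEXPK K hK1
  obtain ⟨W0, hW0⟩ := thrBG t hδ (C * (t : ℝ) ^ K)
  -- the terms are large
  have hfinW : {j : ℕ | ‖φ (w j)‖ < W0}.Finite := by
    refine (hfinx ((t + 1) * (max W0 1) ^ 2)).subset fun j hj => ?_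
    have hj' : ‖φ (w j)‖ < W0 := hj
    have h1 : |(x j : ℝ)| ≤ ‖φ (w j)‖ ^ 2 + t * ‖φ (w j)‖ ^ (2 - δ) := by
      have h2 := congrArg norm (hxC j)
      rw [Complex.norm_real, Real.norm_eq_abs] at h2
      rw [h2]
      refine (norm_add_le _ _).trans ?_
      rw [norm_pow]
      linarith [hsB j]
    have hm1 : (1 : ℝ) ≤ max W0 1 := le_max_right _ _
    have h3 : ‖φ (w j)‖ ≤ max W0 1 := hj'.le.trans (le_max_left _ _)
    have h4 : ‖φ (w j)‖ ^ 2 ≤ (max W0 1) ^ 2 := pow_le_pow_left₀ (norm_nonneg _) h3 2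
    have h5 : ‖φ (w j)‖ ^ (2 - δ) ≤ (max W0 1) ^ 2 := by
      calc ‖φ (w j)‖ ^ (2 - δ) ≤ (max W0 1) ^ (2 - δ) :=
            Real.rpow_le_rpow (norm_nonneg _) h3 (by linarith)
        _ ≤ (max W0 1) ^ (2 : ℝ) := Real.rpow_le_rpow_of_exponent_le hm1 (by linarith)
        _ = (max W0 1) ^ 2 := by exact_mod_cast Real.rpow_natCast (max W0 1) 2
    have h6 : (t : ℝ) * ‖φ (w j)‖ ^ (2 - δ) ≤ t * (max W0 1) ^ 2 :=
      mul_le_mul_of_nonneg_left h5 (by positivity)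
    show |(x j : ℝ)| ≤ (t + 1) * (max W0 1) ^ 2
    linarith
  set M0 : Set ℕ := {j | ‖φ (w j)‖ < W0}ᶜ with hM0
  have hM0i : M0.Infinite := hfinW.infinite_compl
  have hM0W : ∀ j ∈ M0, W0 ≤ ‖φ (w j)‖ := fun j hj => not_lt.1 hj
  obtain ⟨M1, S', P, r, u, E, Wl, Wi, V, hM1M0, hM1i, hS', hE, hPn, hind, hall⟩ :=
    hCONJ M S φ 2 t δ M0 w a x hS (by norm_num) hδ (by push_cast; exact hδ2) hM0i (fun j _ => hwS j)
      (fun j _ => haS j) (fun j _ i => by push_cast; exact haB j i) (fun j _ => hsum j)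
      (fun B => (hfinx B).subset fun j hj => hj.2)
  have hu0 : ∀ j ∈ M1, ∀ k, u j k ≠ 0 := hind.1
  -- the approximation
  let F0 : ℕ → M := fun j => w j ^ 3 * ∑ k ∈ Finset.range K, (c k : M) * ((∑ i, a j i) * (w j)⁻¹ ^ 2) ^ k
  have hφF : ∀ j, φ (F0 j) = φ (w j) ^ 3 *
      ∑ k ∈ Finset.range K, (c k : ℂ) * (φ (∑ i, a j i) * (φ (w j))⁻¹ ^ 2) ^ k := by
    intro j
    simp only [F0, map_mul, map_pow, map_inv₀, map_sum, map_ratCast]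
  have hpt : ∀ j ∈ M1, 16 ≤ |(x j : ℝ)| ∧ |(y j : ℝ)| ≤ |(x j : ℝ)| ^ (2 : ℝ) ∧
      (‖((y j : ℝ) : ℂ) - φ (F0 j)‖ ≤ |(x j : ℝ)| ^ (-(1 / 2) : ℝ) ∨
        ‖((-(y j : ℝ) : ℝ) : ℂ) - φ (F0 j)‖ ≤ |(x j : ℝ)| ^ (-(1 / 2) : ℝ)) := by
    intro j hj
    obtain ⟨h6, h12, hD⟩ := hW0 _ (hM0W j (hM1M0 hj))
    have h := ptBG t hε K hK7 c C hC hcv (W := φ (w j)) (s := φ (∑ i, a j i)) (x := (x j : ℝ))
      (y := (y j : ℝ)) h6 h12 hD (hsB j) (hxC j) (by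
        have h1 := hdj j
        push_cast at h1
        exact h1)
    rw [hφF j]
    exact h
  -- the sign
  have hsign : ∃ e : ℤ, (e = 1 ∨ e = -1) ∧
      {j | j ∈ M1 ∧ ‖(((e * y j : ℤ) : ℝ) : ℂ) - φ (F0 j)‖ ≤ |(x j : ℝ)| ^ (-(1 / 2) : ℝ)}.Infinite := by
    by_contra hno
    push Not at hno
    have h1 := hno 1 (Or.inl rfl)
    have h2 := hno (-1) (Or.inr rfl)
    refine hM1i ((h1.union h2).subset fun j hj => ?_)
    rcases (hpt j hj).2.2 with h3 | h3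
    · left
      refine ⟨hj, ?_⟩
      have h4 : (((1 * y j : ℤ) : ℝ) : ℂ) = ((y j : ℝ) : ℂ) := by push_cast; ring
      rw [h4]
      exact h3
    · right
      refine ⟨hj, ?_⟩
      have h4 : (((-1 * y j : ℤ) : ℝ) : ℂ) = ((-(y j : ℝ) : ℝ) : ℂ) := by push_cast; ring
      rw [h4]
      exact h3
  obtain ⟨e, he, hM2i⟩ := hsign
  set M2 : Set ℕ := {j | j ∈ M1 ∧
    ‖(((e * y j : ℤ) : ℝ) : ℂ) - φ (F0 j)‖ ≤ |(x j : ℝ)| ^ (-(1 / 2) : ℝ)} with hM2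
  have hM2M1 : M2 ⊆ M1 := fun j hj => hj.1
  have he1 : |(e : ℝ)| = 1 := by
    rcases he with h | h
    · rw [h]; norm_num
    · rw [h]; norm_num
  -- the integer `e * y` is a value of a Laurent polynomial
  set aa : ℝ := max E 2 with haa
  have haa0 : 0 < aa := lt_of_lt_of_le hE (le_max_left _ _)
  let F : (M ≃ₐ[ℚ] M) → LauM M r := fun σ =>
    Wl σ ^ 3 * ∑ k ∈ Finset.range K, (c k : M) • (V σ * Wi σ ^ 2) ^ k
  have hFev : ∀ j ∈ M1, ∀ σ : M ≃ₐ[ℚ] M, evM (u j) (F σ) = σ.symm (F0 j) := by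
    intro j hj σ
    obtain ⟨_, _, hσ⟩ := hall j hj
    obtain ⟨h1, h2, h3⟩ := hσ σ
    have hp := hu0 j hj
    simp only [F, F0]
    rw [evM_mul' hLAUBM hp, evM_pow' hLAUBM hp, evM_sum' hLAUBM hp, h1]
    simp only [evM_smul' hLAUBM hp, evM_pow' hLAUBM hp, evM_mul' hLAUBM hp, h2, h3]
    simp only [map_mul, map_pow, map_inv₀, map_sum, map_ratCast]
  obtain ⟨M3, G, hM3M2, hM3i, hG⟩ := hSUBYK M S' P r M2 u F aa (1 / 2) (fun j => |(x j : ℝ)|)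
    (fun j => e * y j) hS' hM2i (by norm_num) haa0 (indepM_mono hM2M1 hind)
    (fun B => (hfinx B).subset fun j hj => hj.2) (by
      intro j hj
      have hj1 := hM2M1 hj
      obtain ⟨hx1, hu, hσ⟩ := hall j hj1
      refine ⟨hx1, fun k => ⟨(hu k).1, ?_⟩, ?_, fun σ => ?_⟩
      · exact HB_mono (Real.rpow_le_rpow_of_exponent_le hx1 (le_max_left _ _)) (hu k).2
      · have h1 : |(((e * y j : ℤ)) : ℝ)| = |(y j : ℝ)| := by
          push_cast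
          rw [abs_mul, he1, one_mul]
        rw [h1]
        exact (hpt j hj1).2.1.trans (Real.rpow_le_rpow_of_exponent_le hx1 (le_max_right _ _))
      · rw [hFev j hj1 σ, map_sub, AlgEquiv.apply_symm_apply, map_intCast, hPn, map_sub, map_intCast]
        have h1 := hj.2
        have h2 : (((e * y j : ℤ) : ℝ) : ℂ) = ((e * y j : ℤ) : ℂ) := by push_cast; ring
        rw [h2] at h1
        exact h1)
  -- the contradiction
  have hM3M1 : M3 ⊆ M1 := fun j hj => hM2M1 (hM3M2 hj)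
  refine hCOREK M S' P r M3 u (Wl 1 ^ 2 + V 1) ((e : M) • G) aa ε x y hS' hM3i hε haa0
    (indepM_mono hM3M1 hind) (fun B => (hfinx B).subset fun j hj => hj.2) ?_
  intro j hj
  have hj1 := hM3M1 hj
  obtain ⟨hx1, hu, hσ⟩ := hall j hj1
  have hp := hu0 j hj1
  refine ⟨fun k => ⟨(hu k).1, ?_⟩, ?_, ?_, hne3 j, hdj j⟩
  · exact HB_mono (Real.rpow_le_rpow_of_exponent_le hx1 (le_max_left _ _)) (hu k).2
  · obtain ⟨h1, _, h3⟩ := hσ 1
    rw [evM_add' hLAUBM hp, evM_pow' hLAUBM hp, h1, h3]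
    have h4 : ∀ z : M, (1 : M ≃ₐ[ℚ] M).symm z = z := fun z => rfl
    rw [h4, h4, hsum j]
  · have h1 : ((e * y j : ℤ) : M) = evM (u j) G := hG j hj
    rw [evM_smul' hLAUBM hp, ← h1]
    push_cast
    rcases he with h | h
    · rw [h]; push_cast; ring
    · rw [h]; push_cast; ring

end Pool.Agent.Helper47.SUBK
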